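import Pool.Agent.R170.FA.Pat3C

/-!
# A counterexample to Turán's `(3,4)`-conjecture has fewer copies of infinitely many subgraphs of
Turán's construction

Turán's construction for the `(3,4)`-problem: the vertices are divided into three parts `A`, `B`,
`C`, and the edges are the triples that meet all three parts and the triples with two vertices in
one part and one vertex in the next, in the cyclic order `A`, `B`, `C`, `A`. Turán's conjecture says
that a `K_4^3`-free 3-graph on `n` vertices has at most `(5/54 + o(1)) n³` edges. Let `T(a, b, c)` be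
the construction with parts of sizes `a`, `b`, `c`, and `M = 3 (n/3)^(a+b+c) / (a! b! c!)` the
asymptotic number of its copies in the construction with `n` vertices and equal parts.

It is proved here that a `K_4^3`-free 3-graph `H` with more than `(5/54) n³` edges has fewer than `M`
copies of `T(a, b, c)` for the following sizes (and their rotations), for all `m` with `m ≥ 1` and
`a + b + c ≥ 6`: `(m, m, m)`, `(m+1, m, m)`, `(m+1, m+1, m)`, `(m+2, m+1, m)`, `(m+2, m, m+1)`,
`(m+3, m+3, m)`, `(m+4, m+2, m)`, `(m+2, m+4, m)`. More precisely, if `H` has `N = (1 - δ) M` copies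
and at least `(5/54) n³` edges, then `9 (54 |H| / n³ - 5) ≤ 2 δ`.

Outline: the starting result `FewerCopies` gives inequalities of this kind for the six-vertex
subgraphs. The division of the vertices of a six-vertex subgraph (with parts of the sizes used here)
into the three parts is unique up to rotation, and a vertex can join at most one of the three parts
of a copy of `T(a, b, c)`; so at most `(n/3)^3` triples of vertices extend it to a copy of
`T(a+1, b+1, c+1)`.
-/

set_option autoImplicit false
open Finset
open scoped Classical Nat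

namespace Pool.Agent.Results.MP_466853_co.FewerCopiesAllSizes

/-- The 3-graph `H` has no four vertices spanning all four triples. -/
def K43Free {n : ℕ} (H : Finset (Finset (Fin n))) : Prop :=
  ∀ S : Finset (Fin n), S.card = 4 → ∃ s ⊆ S, s.card = 3 ∧ s ∉ H

/-- The triples `t` of Turán's construction with the parts `A`, `B`, `C`: those with one vertex in
each part, and those with two vertices in one part and one vertex in the next, in the cyclic order
`A`, `B`, `C`, `A`. -/
def Edge {n : ℕ} (A B C t : Finset (Fin n)) : Prop :=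
  ((t ∩ A).card = 1 ∧ (t ∩ B).card = 1 ∧ (t ∩ C).card = 1) ∨
    ((t ∩ A).card = 2 ∧ (t ∩ B).card = 1) ∨ ((t ∩ B).card = 2 ∧ (t ∩ C).card = 1) ∨
    ((t ∩ C).card = 2 ∧ (t ∩ A).card = 1)

/-- The sets `A`, `B`, `C` are pairwise disjoint, and the triples of Turán's construction with these
parts belong to `H`. -/
def Copy {n : ℕ} (H : Finset (Finset (Fin n))) (A B C : Finset (Fin n)) : Prop :=
  Disjoint A B ∧ Disjoint B C ∧ Disjoint C A ∧
    ∀ t ⊆ A ∪ B ∪ C, t.card = 3 → Edge A B C t → t ∈ H

/-- The number of copies of Turán's construction with parts of sizes `a`, `b`, `c` in `H`. -/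
noncomputable def copies {n : ℕ} (a b c : ℕ) (H : Finset (Finset (Fin n))) : ℕ :=
  ((univ : Finset (Finset (Fin n) × Finset (Fin n) × Finset (Fin n))).filter fun p =>
    p.1.card = a ∧ p.2.1.card = b ∧ p.2.2.card = c ∧ Copy H p.1 p.2.1 p.2.2).card

/-- The sizes of the parts for which the theorem is proved. -/
def Sizes (a b c : ℕ) : Prop :=
  1 ≤ b ∧ 1 ≤ c ∧ 6 ≤ a + b + c ∧ ((a = c ∧ b = c) ∨ (a = c + 1 ∧ b = c) ∨
    (a = c + 1 ∧ b = c + 1) ∨ (a = c + 2 ∧ b = c + 1) ∨ (a = b + 2 ∧ c = b + 1) ∨
    (a = c + 3 ∧ b = c + 3) ∨ (a = c + 4 ∧ b = c + 2) ∨ (a = c + 2 ∧ b = c + 4))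

open Pool.Agent.R170.FA

/-- Let `H` be a `K_4^3`-free 3-graph on `n` vertices with at least `(5/54) n³` edges and `N` the
number of its copies of Turán's construction with parts of sizes `a`, `b`, `c`. Then
`486 n ^ (a+b+c-3) |H| + 2 * 3 ^ (a+b+c-1) a! b! c! N ≤ 47 n ^ (a+b+c)`; so `3 ^ (a+b+c-1) a! b! c! N
< n ^ (a+b+c)` if `H` has more than `(5/54) n³` edges. For every `m` there is a `K_4^3`-free 3-graph
(Turán's construction) on `3 m` vertices with at least `(5 m³ - 9 m²) / 2` edges and
`3 C(m,a) C(m,b) C(m,c)` copies for all `a ≥ 1`, `b`, `c`. -/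
theorem result :
    (∀ a b c : ℕ, Sizes a b c →
      ∀ (n : ℕ) (H : Finset (Finset (Fin n))), (∀ e ∈ H, e.card = 3) → K43Free H →
        5 * n ^ 3 ≤ 54 * H.card →
        n ^ (a + b + c - 3) * (486 * H.card) +
          2 * (3 ^ (a + b + c - 1) * (a ! * (b ! * c !)) * copies a b c H) ≤
            47 * n ^ (a + b + c) ∧
        (5 * n ^ 3 < 54 * H.card →
          3 ^ (a + b + c - 1) * (a ! * (b ! * c !)) * copies a b c H < n ^ (a + b + c))) ∧
    (∀ m : ℕ, ∃ H : Finset (Finset (Fin (3 * m))), (∀ e ∈ H, e.card = 3) ∧ K43Free H ∧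
      5 * m ^ 3 ≤ 2 * H.card + 9 * m ^ 2 ∧
      ∀ a b c : ℕ, 1 ≤ a → 3 * (m.choose a * (m.choose b * m.choose c)) ≤ copies a b c H) := by
  refine ⟨fun a b c hs n H hH hK hd => ?_, fun m => ?_⟩
  · have ha : 1 ≤ a := by
      obtain ⟨h1, h2, h6, h⟩ := hs
      omega
    have h6 : 6 ≤ a + b + c := hs.2.2.1
    have hc : copies a b c H = (P3.prs3 a b c H).card :=
      congrArg card (P3.cps_eq hK ha hs.1 hs.2.1)
    have hg := P3.ge_all hH hK hd (show P3.Sz a b c from hs)
    unfold P3.GE P3.GT at hg
    rw [show a + b + c - 3 + 2 = a + b + c - 1 by omega,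
      show a + b + c - 3 + 3 = a + b + c by omega] at hg
    rw [hc]
    refine ⟨hg, fun hlt => ?_⟩
    have hn : 0 < n := by
      rcases Nat.eq_zero_or_pos n with rfl | hn
      · have h0 : H = ∅ := by
          refine eq_empty_of_forall_notMem fun e he => ?_
          have h3 := hH e he
          have := card_le_univ e
          rw [Fintype.card_fin] at this
          omega
        rw [h0] at hlt
        simp at hlt
      · exact hn
    generalize 3 ^ (a + b + c - 1) * (a ! * (b ! * c !)) * (P3.prs3 a b c H).card = Q at hg ⊢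
    have e1 : n ^ (a + b + c) = n ^ (a + b + c - 3) * n ^ 3 := by
      rw [← pow_add, show a + b + c - 3 + 3 = a + b + c by omega]
    have hpos : 0 < n ^ (a + b + c - 3) := pow_pos hn _
    have h2 : n ^ (a + b + c - 3) * (5 * n ^ 3) < n ^ (a + b + c - 3) * (54 * H.card) :=
      Nat.mul_lt_mul_of_pos_left hlt hpos
    have h3 : n ^ (a + b + c - 3) * (486 * H.card) = 9 * (n ^ (a + b + c - 3) * (54 * H.card)) := by
      ring
    have h4 : n ^ (a + b + c - 3) * (5 * n ^ 3) = 5 * n ^ (a + b + c) := by rw [e1]; ring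
    rw [h3] at hg
    rw [h4] at h2
    omega
  · refine ⟨P3.tu (P3.blk m), fun e he => P3.tu_card he, P3.tu_free _, ?_, fun a b c ha => ?_⟩
    · have h := Pool.Agent.Results.MP_466853_co.FewerCopies.edges_turan m
      have e : P3.tu (P3.blk m) = Pool.Agent.Results.MP_466853_co.FewerCopies.turan
          (Pool.Agent.Results.MP_466853_co.FewerCopies.blk m) := by
        rw [P3.tu_turan]
        rfl
      rw [e]
      omega
    · refine (P3.tu_low _ m (P3.blk_card m) a b c ha).trans (card_le_card fun p hp => ?_)
      obtain ⟨h1, h2, h3, h4⟩ := P3.mem_prs3.mp hp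
      exact mem_filter.mpr ⟨mem_univ _, h1, h2, h3, h4.1, h4.2.1, h4.2.2.1, fun t ht hc he =>
        (h4.2.2.2 t ht hc).mpr he⟩

end Pool.Agent.Results.MP_466853_co.FewerCopiesAllSizes
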